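import Pool.Agent.V5helper23.PF.Stm

/-! # Project PF, job DT: the time derivative of the double sum -/

set_option autoImplicit false

open MeasureTheory Set Real Filter Topology intervalIntegral
open scoped ENNReal NNReal

namespace Pool.Agent.V5helper80.PF

open Pool.Agent.Y308.BC Pool.Agent.V5helper93.NS Pool.Agent.V5helper23.PF

lemma lam_ge (k : ℕ) : ((k : ℝ) + 1) ^ 2 ≤ lam k := by
  unfold lam kk
  rw [mul_pow]
  have h1 : (1 : ℝ) ≤ π ^ 2 := by nlinarith [Real.pi_gt_three]
  have h2 : 0 ≤ ((k : ℝ) + 1) ^ 2 := by positivity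
  nlinarith

lemma lam_one (k : ℕ) : 1 ≤ lam k := by
  have h := lam_ge k
  have h2 : (0 : ℝ) ≤ k := Nat.cast_nonneg k
  nlinarith

lemma summ1 {β : ℝ} (hβ : 0 < β) : Summable fun k => lam k * Real.exp (-(lam k) * β) := by
  have h0 : Summable fun k : ℕ => 2 / β ^ 2 * (1 / ((k : ℝ) + 1) ^ 2) := by
    apply Summable.mul_left
    have h := (summable_nat_add_iff 1).2 (Real.summable_one_div_nat_pow.2 (by norm_num : 1 < 2))
    refine h.congr fun k => ?_
    push_cast
    rfl
  refine Summable.of_nonneg_of_le (fun k => ?_) (fun k => ?_) h0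
  · have := lam_one k
    exact mul_nonneg (by linarith) (Real.exp_pos _).le
  · have hl : ((k : ℝ) + 1) ^ 2 ≤ lam k := lam_ge k
    have hk : 0 < ((k : ℝ) + 1) ^ 2 := by positivity
    have hl0 : 0 < lam k := lt_of_lt_of_le hk hl
    have hz : 0 < lam k * β := by positivity
    have e1 : (lam k * β) ^ 2 / 2 ≤ Real.exp (lam k * β) := by
      have := Real.quadratic_le_exp_of_nonneg hz.le
      nlinarith
    have e2 : Real.exp (-(lam k) * β) ≤ 2 / (lam k * β) ^ 2 := by
      rw [neg_mul, Real.exp_neg, inv_le_comm₀ (Real.exp_pos _) (by positivity), inv_div]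
      exact e1
    calc lam k * Real.exp (-(lam k) * β) ≤ lam k * (2 / (lam k * β) ^ 2) :=
          mul_le_mul_of_nonneg_left e2 hl0.le
      _ = 2 / β ^ 2 * (1 / lam k) := by field_simp
      _ ≤ 2 / β ^ 2 * (1 / ((k : ℝ) + 1) ^ 2) := by
          apply mul_le_mul_of_nonneg_left _ (by positivity)
          exact one_div_le_one_div_of_le hk hl

lemma summ0 {β : ℝ} (hβ : 0 < β) : Summable fun k => Real.exp (-(lam k) * β) := by
  refine Summable.of_nonneg_of_le (fun k => (Real.exp_pos _).le) (fun k => ?_) (summ1 hβ)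
  have := lam_one k
  have h2 := Real.exp_pos (-(lam k) * β)
  nlinarith

lemma bd3 {u e v A E V : ℝ} (hu : |u| ≤ A) (he0 : 0 ≤ e) (he : e ≤ E) (hv : |v| ≤ V) :
    |u * (e * v)| ≤ A * (E * V) := by
  rw [abs_mul, abs_mul, abs_of_nonneg he0]
  have hA : 0 ≤ A := (abs_nonneg u).trans hu
  have hE : 0 ≤ E := he0.trans he
  gcongr

theorem t_DT (h : S_BND) : S_DT := by
  intro a b σ m c ha hb hσ hc t x y ht hx hy
  obtain ⟨hm, hcm⟩ := hc
  have hs0 : 0 < t / 2 := half_pos ht
  obtain ⟨K, hK, hbd⟩ := h σ (a * (t / 2)) hσ (by positivity)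
  have hx2 : |x| ≤ 2 := by
    rw [abs_of_pos hx.1]
    linarith [hx.2]
  have hB : ∀ k s, t / 2 < s → |w (c k) σ (a * s) x| ≤ K * m ∧ |wxx (c k) σ (a * s) x| ≤ K * m := by
    intro k s hs
    have h1 := hbd (c k) m hm (hcm k) (a * s) x (mul_le_mul_of_nonneg_left hs.le ha.le) hx2
    exact ⟨h1.1, h1.2.2⟩
  have hE : ∀ k s, t / 2 < s → Real.exp (-(lam k) * (b * s)) ≤ Real.exp (-(lam k) * (b * (t / 2))) := by
    intro k s hs
    apply Real.exp_le_exp.2
    have h1 := lam_one k
    have h2 : b * (t / 2) ≤ b * s := mul_le_mul_of_nonneg_left hs.le hb.le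
    nlinarith
  have hβ : 0 < b * (t / 2) := by positivity
  have hu0 := summ0 hβ
  have hu1 := summ1 hβ
  have b1 : ∀ k s, t / 2 < s → |wxx (c k) σ (a * s) x * (Real.exp (-(lam k) * (b * s)) * es k y)| ≤
      K * m * (Real.exp (-(lam k) * (b * (t / 2))) * √2) := fun k s hs =>
    bd3 (hB k s hs).2 (Real.exp_pos _).le (hE k s hs) (es_le k y)
  have b0 : ∀ k s, t / 2 < s → |w (c k) σ (a * s) x * (Real.exp (-(lam k) * (b * s)) * es k y)| ≤
      K * m * (Real.exp (-(lam k) * (b * (t / 2))) * √2) := fun k s hs =>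
    bd3 (hB k s hs).1 (Real.exp_pos _).le (hE k s hs) (es_le k y)
  have b2 : ∀ k s, t / 2 < s → |w (c k) σ (a * s) x * (Real.exp (-(lam k) * (b * s)) * (-(lam k) * es k y))| ≤
      K * m * (Real.exp (-(lam k) * (b * (t / 2))) * (lam k * √2)) := fun k s hs =>
    bd3 (hB k s hs).1 (Real.exp_pos _).le (hE k s hs) (by
      have h1 := lam_one k
      rw [abs_mul, abs_neg, abs_of_nonneg (by linarith)]
      exact mul_le_mul_of_nonneg_left (es_le k y) (by linarith))
  have s1 : Summable fun k => K * m * (Real.exp (-(lam k) * (b * (t / 2))) * √2) :=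
    (hu0.mul_right _).mul_left _
  have s2 : Summable fun k => K * m * (Real.exp (-(lam k) * (b * (t / 2))) * (lam k * √2)) := by
    refine ((hu1.mul_right √2).mul_left (K * m)).congr fun k => ?_
    ring
  have hU : ∀ s ∈ Ioi (t / 2), ∀ k, HasDerivAt
      (fun s => w (c k) σ (a * s) x * (Real.exp (-(lam k) * (b * s)) * es k y))
      (a * (wxx (c k) σ (a * s) x * (Real.exp (-(lam k) * (b * s)) * es k y)) +
        b * (w (c k) σ (a * s) x * (Real.exp (-(lam k) * (b * s)) * (-(lam k) * es k y)))) s := by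
    intro s hs k
    have hs' : t / 2 < s := hs
    have hspos : 0 < s := lt_trans hs0 hs'
    have d1 : HasDerivAt (fun s => w (c k) σ (a * s) x) (wxx (c k) σ (a * s) x * a) s := by
      have h1 := w_dt hm (hcm k) hσ (t := a * s) (x := x) (by positivity) hx2
      have h2 : HasDerivAt (fun s : ℝ => a * s) a s := by
        simpa using (hasDerivAt_id s).const_mul a
      exact HasDerivAt.comp s h1 h2
    have d2 : HasDerivAt (fun s => Real.exp (-(lam k) * (b * s)) * es k y)
        (Real.exp (-(lam k) * (b * s)) * (-(lam k) * b) * es k y) s := by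
      have h2 : HasDerivAt (fun s : ℝ => -(lam k) * (b * s)) (-(lam k) * b) s := by
        simpa using ((hasDerivAt_id s).const_mul b).const_mul (-(lam k))
      exact h2.exp.mul_const _
    refine (d1.mul d2).congr_deriv ?_
    ring
  have key := hasDerivAt_tsum_of_isPreconnected
    (u := fun k => a * (K * m * (Real.exp (-(lam k) * (b * (t / 2))) * √2)) +
      b * (K * m * (Real.exp (-(lam k) * (b * (t / 2))) * (lam k * √2))))
    (g := fun k s => w (c k) σ (a * s) x * (Real.exp (-(lam k) * (b * s)) * es k y))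
    (g' := fun k s => a * (wxx (c k) σ (a * s) x * (Real.exp (-(lam k) * (b * s)) * es k y)) +
        b * (w (c k) σ (a * s) x * (Real.exp (-(lam k) * (b * s)) * (-(lam k) * es k y))))
    (t := Ioi (t / 2)) (y₀ := t) (y := t)
    ((s1.mul_left a).add (s2.mul_left b)) isOpen_Ioi isPreconnected_Ioi
    (fun k s hs => hU s hs k)
    (fun k s hs => by
      rw [Real.norm_eq_abs]
      refine (abs_add_le _ _).trans (add_le_add ?_ ?_)
      · rw [abs_mul, abs_of_pos ha]
        exact mul_le_mul_of_nonneg_left (b1 k s hs) ha.le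
      · rw [abs_mul, abs_of_pos hb]
        exact mul_le_mul_of_nonneg_left (b2 k s hs) hb.le)
    (by simp only [mem_Ioi]; linarith)
    (Summable.of_norm_bounded s1 fun k => b0 k t (by linarith))
    (by simp only [mem_Ioi]; linarith)
  have e1 : Summable fun k => wxx (c k) σ (a * t) x * (Real.exp (-(lam k) * (b * t)) * es k y) :=
    Summable.of_norm_bounded s1 fun k => b1 k t (by linarith)
  have e2 : Summable fun k => w (c k) σ (a * t) x * (Real.exp (-(lam k) * (b * t)) * (-(lam k) * es k y)) :=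
    Summable.of_norm_bounded s2 fun k => b2 k t (by linarith)
  refine key.congr_deriv ?_
  rw [(e1.mul_left a).tsum_add (e2.mul_left b), tsum_mul_left, tsum_mul_left]
  rfl

end Pool.Agent.V5helper80.PF
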